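import Pool.Agent.P8H64.GP.Stm

/-! Project GP of helper64, package MOM: moments of the Gaussian law, Lyapunov's inequality. -/

set_option autoImplicit false

namespace Pool.Agent.P8H41.GP

open MeasureTheory ProbabilityTheory Pool.Agent.P8H64.GP

theorem mom_int (ν : ℝ) (hν : 0 ≤ ν) :
    Integrable (fun x : ℝ => |x| ^ (2 * ν)) (gaussianReal 0 1) := by
  rcases hν.eq_or_lt with h | h
  · rw [← h]
    simp
  · have h1 := memLp_id_gaussianReal (μ := 0) (v := 1) (Real.toNNReal (2 * ν))
    have hp0 : ((Real.toNNReal (2 * ν) : NNReal) : ENNReal) ≠ 0 := by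
      simp only [ne_eq, ENNReal.coe_eq_zero, Real.toNNReal_eq_zero, not_le]
      linarith
    have h2 := h1.integrable_norm_rpow hp0 ENNReal.coe_ne_top
    refine h2.congr (Filter.Eventually.of_forall fun x => ?_)
    simp only [id, Real.norm_eq_abs, ENNReal.coe_toReal]
    rw [Real.coe_toNNReal _ (by linarith)]

theorem mom : S_MOM := by
  intro ν τ hν hντ hτ
  refine ⟨mom_int ν hν, ?_⟩
  have hθ0 : 0 ≤ ν / τ := div_nonneg hν hτ.le
  have hθ1 : ν / τ ≤ 1 := (div_le_one hτ).2 hντ
  have he : ∀ x : ℝ, (|x| ^ (2 * τ)) ^ (ν / τ) = |x| ^ (2 * ν) := by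
    intro x
    rw [← Real.rpow_mul (abs_nonneg x)]
    congr 1
    field_simp
  have hJ := (Real.concaveOn_rpow hθ0 hθ1).le_map_integral (μ := gaussianReal 0 1)
    (f := fun x : ℝ => |x| ^ (2 * τ))
    (continuousOn_id.rpow_const fun x _ => Or.inr hθ0) isClosed_Ici
    (Filter.Eventually.of_forall fun x => Set.mem_Ici.2 (Real.rpow_nonneg (abs_nonneg x) _))
    (mom_int τ hτ.le)
    ((mom_int ν hν).congr (Filter.Eventually.of_forall fun x => (he x).symm))
  simp only [he] at hJ
  exact hJ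

end Pool.Agent.P8H41.GP
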